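import Mathlib

/-!
# Every analytic null-finite set has a Borel null-finite hull

Let `A` be analytic and null-finite, witnessed by the null-sequence `s`.  The analytic sets
`A n = {x : x + s n ∈ A}` have empty upper limit, hence the decreasing analytic sets
`⋃_{n ≥ m} A n` have empty intersection.  By Novikov's separation theorem, proved below, there are
Borel sets `C m` containing them with empty intersection, and
`B = ⋂_n {x : x - s n ∈ ⋂_{m ≤ n} C m}` is the desired Borel hull.
-/

namespace Pool.Agent.Results.MP_ceb5ee_gt.AnalyticHull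

open Set Filter Topology MeasureTheory PiNat

/-- A set is null-finite if there is a sequence `s n → 0` such that for each `x` only finitely many
`n` satisfy `x + s n ∈ A`. -/
def NullFinite {X : Type*} [AddCommGroup X] [TopologicalSpace X] (A : Set X) : Prop :=
  ∃ s : ℕ → X, Tendsto s atTop (𝓝 0) ∧ ∀ x : X, {n | x + s n ∈ A}.Finite

/-! ### Novikov's separation theorem -/

section Novikov

variable {α : Type*} [MeasurableSpace α]

/-- The sequence `P` of sets can be enlarged to a sequence of measurable sets with empty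
intersection. -/
def Sep (P : ℕ → Set α) : Prop :=
  ∃ B : ℕ → Set α, (∀ n, MeasurableSet (B n) ∧ P n ⊆ B n) ∧ ⋂ n, B n = ∅

lemma Sep.iUnion {P : ℕ → Set α} {i : ℕ} {Q : ℕ → Set α} (hP : P i ⊆ ⋃ j, Q j)
    (h : ∀ j, Sep (Function.update P i (Q j))) : Sep P := by
  choose B hB hBe using h
  refine ⟨fun n => if n = i then ⋃ j, B j i else ⋂ j, B j n, fun n => ?_, ?_⟩
  · by_cases hn : n = i
    · simp only [if_pos hn]
      refine ⟨MeasurableSet.iUnion fun j => (hB j i).1, ?_⟩
      rw [hn]
      refine hP.trans (Set.iUnion_mono fun j => ?_)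
      have := (hB j i).2
      rwa [Function.update_self] at this
    · simp only [if_neg hn]
      refine ⟨MeasurableSet.iInter fun j => (hB j n).1, Set.subset_iInter fun j => ?_⟩
      have := (hB j n).2
      rwa [Function.update_of_ne hn] at this
  · rw [Set.eq_empty_iff_forall_notMem]
    intro x hx
    rw [Set.mem_iInter] at hx
    have h1 := hx i
    simp only [if_true] at h1
    obtain ⟨j, hj⟩ := Set.mem_iUnion.1 h1
    have h2 : x ∈ ⋂ n, B j n := by
      refine Set.mem_iInter.2 fun n => ?_
      by_cases hn : n = i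
      · rw [hn]
        exact hj
      · have h3 := hx n
        simp only [if_neg hn] at h3
        exact Set.mem_iInter.1 h3 j
    rw [hBe j] at h2
    exact h2

variable [TopologicalSpace α] [T2Space α] [OpensMeasurableSpace α]

/-- Novikov's separation theorem for continuous images of the Baire space. -/
theorem novikov_range {f : ℕ → (ℕ → ℕ) → α} (hf : ∀ n, Continuous (f n))
    (h : ⋂ n, Set.range (f n) = ∅) : Sep fun n => Set.range (f n) := by
  classical
  by_contra hns
  -- coordinate to be refined at stage `t`, and the current lengths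
  set c : ℕ → ℕ := fun t => (Nat.unpair t).1 with hc
  set k : ℕ → ℕ → ℕ := fun t n => ((Finset.range t).filter fun s => c s = n).card with hk
  have hk0 : ∀ n, k 0 n = 0 := fun n => by simp [hk]
  have hksucc : ∀ t n, k (t + 1) n = if c t = n then k t n + 1 else k t n := by
    intro t n
    simp only [hk, Finset.range_add_one, Finset.filter_insert]
    split_ifs with h1
    · rw [Finset.card_insert_of_notMem]
      simp
    · rfl
  have hkmono : ∀ n, Monotone fun t => k t n := by
    intro n
    refine monotone_nat_of_le_succ fun t => ?_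
    rw [hksucc]
    split_ifs
    · exact Nat.le_succ _
    · exact le_rfl
  have hklarge : ∀ n N, ∃ t, N ≤ k t n := by
    intro n N
    refine ⟨(Finset.range N).sup (fun j => Nat.pair n j) + 1, ?_⟩
    have h1 : ((Finset.range N).image fun j => Nat.pair n j) ⊆
        (Finset.range ((Finset.range N).sup (fun j => Nat.pair n j) + 1)).filter
          fun s => c s = n := by
      intro s hs
      obtain ⟨j, hj, rfl⟩ := Finset.mem_image.1 hs
      refine Finset.mem_filter.2 ⟨Finset.mem_range.2 (Nat.lt_succ_of_le ?_), ?_⟩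
      · exact Finset.le_sup (f := fun j => Nat.pair n j) hj
      · simp [hc]
    have h2 : ((Finset.range N).image fun j => Nat.pair n j).card = N := by
      rw [Finset.card_image_of_injective, Finset.card_range]
      intro a b hab
      exact (Nat.pair_eq_pair.1 hab).2
    calc N = ((Finset.range N).image fun j => Nat.pair n j).card := h2.symm
      _ ≤ _ := Finset.card_le_card h1
  -- one refinement step
  have hstep : ∀ (t : ℕ) (x : ℕ → ℕ → ℕ), ¬ Sep (fun n => f n '' cylinder (x n) (k t n)) →
      ∃ x' : ℕ → ℕ → ℕ, (∀ n, x' n ∈ cylinder (x n) (k t n)) ∧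
        ¬ Sep (fun n => f n '' cylinder (x' n) (k (t + 1) n)) := by
    intro t x hx
    by_contra hcon
    push Not at hcon
    apply hx
    refine Sep.iUnion (i := c t)
      (Q := fun j => f (c t) '' cylinder (Function.update (x (c t)) (k t (c t)) j)
        (k t (c t) + 1)) ?_ ?_
    · have h3 : (⋃ j : ℕ, cylinder (Function.update (x (c t)) (k t (c t)) j) (k t (c t) + 1)) =
          cylinder (x (c t)) (k t (c t)) := iUnion_cylinder_update (E := fun _ => ℕ) _ _
      rw [← Set.image_iUnion, h3]
    · intro j
      have h1 := hcon (Function.update x (c t) (Function.update (x (c t)) (k t (c t)) j)) (by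
        intro n
        by_cases hn : n = c t
        · subst hn
          rw [Function.update_self]
          exact update_mem_cylinder _ _ _
        · rw [Function.update_of_ne hn]
          exact self_mem_cylinder _ _)
      convert h1 using 1
      funext n
      by_cases hn : n = c t
      · subst hn
        rw [Function.update_self, Function.update_self, hksucc, if_pos rfl]
      · rw [Function.update_of_ne hn, Function.update_of_ne hn, hksucc, if_neg (Ne.symm hn)]
  -- iterate
  let St := {q : ℕ × (ℕ → ℕ → ℕ) // ¬ Sep (fun n => f n '' cylinder (q.2 n) (k q.1 n))}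
  have hstep' : ∀ q : St, ∃ q' : St, q'.1.1 = q.1.1 + 1 ∧
      ∀ n, q'.1.2 n ∈ cylinder (q.1.2 n) (k q.1.1 n) := by
    rintro ⟨⟨t, x⟩, hx⟩
    obtain ⟨x', h1, h2⟩ := hstep t x hx
    exact ⟨⟨⟨t + 1, x'⟩, h2⟩, rfl, h1⟩
  choose next hnext1 hnext2 using hstep'
  have hinit : ¬ Sep (fun n => f n '' cylinder ((fun _ _ => 0 : ℕ → ℕ → ℕ) n) (k 0 n)) := by
    simpa [hk0] using hns
  let q : ℕ → St := fun t => Nat.rec (⟨⟨0, fun _ _ => 0⟩, hinit⟩ : St) (fun _ p => next p) t
  have hqs : ∀ t, q (t + 1) = next (q t) := fun t => rfl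
  have hq1 : ∀ t, (q t).1.1 = t := by
    intro t
    induction t with
    | zero => rfl
    | succ t ih => rw [hqs, hnext1, ih]
  set x : ℕ → ℕ → ℕ → ℕ := fun t => (q t).1.2 with hx
  have hxs : ∀ t n, x (t + 1) n ∈ cylinder (x t n) (k t n) := by
    intro t n
    have := hnext2 (q t) n
    rw [hq1] at this
    exact this
  have hxNS : ∀ t, ¬ Sep (fun n => f n '' cylinder (x t n) (k t n)) := by
    intro t
    have := (q t).2
    rw [hq1] at this
    exact this
  have hxmem : ∀ n t t', t ≤ t' → x t' n ∈ cylinder (x t n) (k t n) := by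
    intro n t t' htt'
    induction t', htt' using Nat.le_induction with
    | base => exact self_mem_cylinder _ _
    | succ t' htt' ih =>
      rw [mem_cylinder_iff] at ih ⊢
      intro i hi
      have h1 := mem_cylinder_iff.1 (hxs t' n) i (hi.trans_le (hkmono n htt'))
      rw [h1]
      exact ih i hi
  -- the limit points
  choose T hT using hklarge
  set y : ℕ → ℕ → ℕ := fun n i => x (T n (i + 1)) n i with hy
  have hymem : ∀ n t, y n ∈ cylinder (x t n) (k t n) := by
    intro n t
    rw [mem_cylinder_iff]
    intro i hi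
    show x (T n (i + 1)) n i = x t n i
    rcases le_total t (T n (i + 1)) with h1 | h1
    · exact mem_cylinder_iff.1 (hxmem n t _ h1) i hi
    · exact (mem_cylinder_iff.1 (hxmem n _ t h1) i
        (lt_of_lt_of_le (Nat.lt_succ_self i) (hT n (i + 1)))).symm
  have hycyl : ∀ n t, cylinder (y n) (k t n) = cylinder (x t n) (k t n) := fun n t =>
    mem_cylinder_iff_eq.1 (hymem n t)
  -- two of the limit values differ
  have hne : ∃ m, f 0 (y 0) ≠ f m (y m) := by
    by_contra hcon
    push Not at hcon
    have h1 : f 0 (y 0) ∈ ⋂ n, Set.range (f n) :=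
      Set.mem_iInter.2 fun n => ⟨y n, (hcon n).symm⟩
    rw [h] at h1
    exact h1
  obtain ⟨m, hm⟩ := hne
  have hm0 : m ≠ 0 := by
    rintro rfl
    exact hm rfl
  obtain ⟨U, V, hU, hV, hyU, hyV, hUV⟩ := t2_separation hm
  have hcyl : ∀ (n : ℕ) (W : Set α), IsOpen W → f n (y n) ∈ W → ∃ t0, ∀ t, t0 ≤ t →
      f n '' cylinder (y n) (k t n) ⊆ W := by
    intro n W hW hyW
    have h1 : f n ⁻¹' W ∈ 𝓝 (y n) := (hf n).continuousAt.preimage_mem_nhds (hW.mem_nhds hyW)
    have h2 : ∃ N, cylinder (y n) N ⊆ f n ⁻¹' W := by
      obtain ⟨O, hO, hOo, hyO⟩ := mem_nhds_iff.1 h1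
      obtain ⟨N, hN⟩ := isTopologicalBasis_cylinders (fun _ => ℕ) |>.exists_subset_of_mem_open
        hyO hOo |>.imp fun _ => id
      obtain ⟨⟨z, N', hN'⟩, hyN, hNO⟩ := hN
      refine ⟨N', ?_⟩
      rw [hN'] at hyN hNO
      rw [mem_cylinder_iff_eq.1 hyN]
      exact hNO.trans hO
    obtain ⟨N, hN⟩ := h2
    refine ⟨T n N, fun t ht => ?_⟩
    rintro _ ⟨z, hz, rfl⟩
    apply hN
    exact cylinder_anti _ ((hT n N).trans (hkmono n ht)) hz
  obtain ⟨t0, ht0⟩ := hcyl 0 U hU hyU
  obtain ⟨t1, ht1⟩ := hcyl m V hV hyV
  apply hxNS (max t0 t1)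
  refine ⟨fun n => if n = 0 then U else if n = m then V else Set.univ, fun n => ?_, ?_⟩
  · by_cases h0 : n = 0
    · subst h0
      simp only [if_true]
      refine ⟨hU.measurableSet, ?_⟩
      rw [← hycyl]
      exact ht0 _ (le_max_left _ _)
    · by_cases h1 : n = m
      · subst h1
        simp only [if_neg h0, if_true]
        refine ⟨hV.measurableSet, ?_⟩
        rw [← hycyl]
        exact ht1 _ (le_max_right _ _)
      · simp only [if_neg h0, if_neg h1]
        exact ⟨MeasurableSet.univ, Set.subset_univ _⟩
  · rw [Set.eq_empty_iff_forall_notMem]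
    intro z hz
    rw [Set.mem_iInter] at hz
    have h1 := hz 0
    have h2 := hz m
    simp only [if_true] at h1
    simp only [if_neg hm0, if_true] at h2
    exact Set.disjoint_left.1 hUV h1 h2

/-- **Novikov's separation theorem.** -/
theorem novikov {A : ℕ → Set α} (hA : ∀ n, AnalyticSet (A n)) (h : ⋂ n, A n = ∅) : Sep A := by
  classical
  by_cases hemp : ∃ i, A i = ∅
  · obtain ⟨i, hi⟩ := hemp
    refine ⟨fun n => if n = i then ∅ else Set.univ, fun n => ?_, ?_⟩
    · by_cases hn : n = i
      · simp [hn, hi]
      · simp [hn]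
    · rw [Set.eq_empty_iff_forall_notMem]
      intro z hz
      have := Set.mem_iInter.1 hz i
      simp at this
  · push Not at hemp
    have h1 : ∀ n, ∃ f : (ℕ → ℕ) → α, Continuous f ∧ Set.range f = A n := by
      intro n
      have h2 := hA n
      rw [AnalyticSet] at h2
      rcases h2 with h2 | h2
      · exact absurd h2 (hemp n).ne_empty
      · exact h2
    choose f hf hfA using h1
    have h2 : (fun n => Set.range (f n)) = A := funext hfA
    rw [← h2]
    refine novikov_range hf ?_
    simp only [hfA]
    exact h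

end Novikov

/-- **Positive answer to Q1.**  In an abelian Polish group every analytic null-finite set is
contained in a Borel null-finite set. -/
theorem result (X : Type*) [AddCommGroup X] [TopologicalSpace X] [IsTopologicalAddGroup X]
    [PolishSpace X] (A : Set X) (hA : AnalyticSet A) (hNF : NullFinite A) :
    ∃ B : Set X, @MeasurableSet X (borel X) B ∧ NullFinite B ∧ A ⊆ B := by
  borelize X
  obtain ⟨s, hs, hfin⟩ := hNF
  set A' : ℕ → Set X := fun n => {x | x + s n ∈ A} with hA'
  have hA'an : ∀ n, AnalyticSet (A' n) := by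
    intro n
    have h1 : A' n = (fun x => x - s n) '' A := by
      ext x
      constructor
      · intro hx
        exact ⟨x + s n, hx, by simp⟩
      · rintro ⟨y, hy, rfl⟩
        show y - s n + s n ∈ A
        simpa using hy
    rw [h1]
    exact hA.image_of_continuous (continuous_id.sub continuous_const)
  set T : ℕ → Set X := fun m => ⋃ n : ℕ, if m ≤ n then A' n else ∅ with hT
  have hTan : ∀ m, AnalyticSet (T m) := by
    intro m
    refine AnalyticSet.iUnion fun n => ?_
    split_ifs
    · exact hA'an n
    · exact analyticSet_empty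
  have hTmem : ∀ m x, x ∈ T m ↔ ∃ n, m ≤ n ∧ x ∈ A' n := by
    intro m x
    simp only [hT, Set.mem_iUnion]
    constructor
    · rintro ⟨n, hn⟩
      by_cases hmn : m ≤ n
      · rw [if_pos hmn] at hn
        exact ⟨n, hmn, hn⟩
      · rw [if_neg hmn] at hn
        exact absurd hn (Set.notMem_empty x)
    · rintro ⟨n, hmn, hn⟩
      refine ⟨n, ?_⟩
      rw [if_pos hmn]
      exact hn
  have hTe : ⋂ m, T m = ∅ := by
    rw [Set.eq_empty_iff_forall_notMem]
    intro x hx
    obtain ⟨N, hN⟩ := (hfin x).bddAbove
    obtain ⟨n, hn, hxn⟩ := (hTmem (N + 1) x).1 (Set.mem_iInter.1 hx (N + 1))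
    have := hN hxn
    omega
  obtain ⟨C, hC, hCe⟩ := novikov hTan hTe
  set D : ℕ → Set X := fun n => ⋂ m : ℕ, if m ≤ n then C m else Set.univ with hD
  have hDmem : ∀ n x, x ∈ D n ↔ ∀ m, m ≤ n → x ∈ C m := by
    intro n x
    simp only [hD, Set.mem_iInter]
    refine forall_congr' fun m => ?_
    by_cases hmn : m ≤ n
    · simp [hmn]
    · simp [hmn]
  have hDmeas : ∀ n, MeasurableSet (D n) := by
    intro n
    refine MeasurableSet.iInter fun m => ?_
    split_ifs
    · exact (hC m).1
    · exact MeasurableSet.univ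
  have hAD : ∀ n, A' n ⊆ D n := by
    intro n x hx
    rw [hDmem]
    intro m hm
    exact (hC m).2 ((hTmem m x).2 ⟨n, hm, hx⟩)
  refine ⟨⋂ n, (fun x => x - s n) ⁻¹' D n, ?_, ⟨s, hs, fun x => ?_⟩, ?_⟩
  · refine MeasurableSet.iInter fun n => ?_
    exact (continuous_id.sub continuous_const).measurable (hDmeas n)
  · have h1 : ∃ m, x ∉ C m := by
      by_contra hcon
      push Not at hcon
      have h2 : x ∈ ⋂ n, C n := Set.mem_iInter.2 hcon
      rw [hCe] at h2
      exact h2
    obtain ⟨m, hm⟩ := h1
    refine (Set.finite_lt_nat m).subset ?_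
    intro n hn
    by_contra hcon
    apply hm
    have h2 : x + s n - s n ∈ D n := Set.mem_iInter.1 hn n
    rw [add_sub_cancel_right] at h2
    exact (hDmem n x).1 h2 m (not_lt.1 hcon)
  · intro x hx
    refine Set.mem_iInter.2 fun n => ?_
    apply hAD
    show x - s n + s n ∈ A
    simpa using hx

end Pool.Agent.Results.MP_ceb5ee_gt.AnalyticHull
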